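import Mathlib
import Pool.Agent.Helper93.Sph.D

/-! The weighted local `L²` estimate. -/

set_option autoImplicit false

open MeasureTheory Real Set Filter Topology
open scoped ENNReal NNReal RealInnerProductSpace

namespace Pool.Agent.U588.Sph

open Pool.Agent.Helper93.Sph

/-- a measure on the line which is at most `C` times the length on intervals -/
lemma le_vol (μ : Measure ℝ) {C : ℝ≥0∞} (hC0 : C ≠ 0) (hC : C ≠ ∞)
    (h : ∀ a b : ℝ, μ (Ioc a b) ≤ C * ENNReal.ofReal (b - a)) : μ ≤ C • volume := by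
  rw [Measure.le_iff]
  intro s _
  have h1 : C⁻¹ • μ.toOuterMeasure ≤ StieltjesFunction.id.outer := by
    unfold StieltjesFunction.outer
    rw [OuterMeasure.le_ofFunction]
    intro t
    rw [StieltjesFunction.length_eq]
    refine le_iInf fun a => le_iInf fun b => le_iInf fun hab => ?_
    have hab' : t ⊆ Ioc a b := fun x hx =>
      hab ⟨hx, notMem_botSet_of_lt (sub_one_lt x)⟩
    have h2 : (C⁻¹ • μ.toOuterMeasure) t = C⁻¹ * μ t := rfl
    rw [h2]
    calc C⁻¹ * μ t ≤ C⁻¹ * (C * ENNReal.ofReal (b - a)) := by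
          gcongr
          exact (measure_mono hab').trans (h a b)
      _ = ENNReal.ofReal (b - a) := by
          rw [← mul_assoc, ENNReal.inv_mul_cancel hC0 hC, one_mul]
  have h2 := h1 s
  have h3 : StieltjesFunction.id.outer s = volume s := by
    rw [Real.volume_eq_stieltjes_id, StieltjesFunction.measure]
    rfl
  rw [h3] at h2
  have h4 : (C⁻¹ • μ.toOuterMeasure) s = C⁻¹ * μ s := rfl
  rw [h4] at h2
  rw [Measure.smul_apply, smul_eq_mul]
  calc μ s = C * (C⁻¹ * μ s) := by rw [← mul_assoc, ENNReal.mul_inv_cancel hC0 hC, one_mul]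
    _ ≤ C * volume s := by gcongr

/-- the Gaussian against a radial weight -/
lemma radial_bound {m : ℕ} {c : ℝ} (hc : 0 < c) (ξ : En (m + 1)) {v : ℝ → ℝ≥0∞}
    (hv : Measurable v) :
    ∫⁻ η : En (m + 1), v ‖η‖ * ENNReal.ofReal (rexp (-c * ‖ξ - η‖ ^ 2))
      ≤ ENNReal.ofReal (2 * (m + 1) * √(m + 1) * (π / c) ^ ((m : ℝ) / 2)) * ∫⁻ r in Ici 0, v r := by
  set g : En (m + 1) → ℝ≥0∞ := fun η => ENNReal.ofReal (rexp (-c * ‖ξ - η‖ ^ 2)) with hg
  have hgm : Measurable g := by rw [hg]; fun_prop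
  set μ : Measure ℝ := Measure.map (fun η : En (m + 1) => ‖η‖) (volume.withDensity g) with hμ
  set C : ℝ≥0∞ := ENNReal.ofReal (2 * (m + 1) * √(m + 1) * (π / c) ^ ((m : ℝ) / 2)) with hC
  have hC0 : C ≠ 0 := by
    rw [hC]
    simp only [ne_eq, ENNReal.ofReal_eq_zero, not_le]
    have : 0 < (π / c) ^ ((m : ℝ) / 2) := rpow_pos_of_pos (by positivity) _
    positivity
  have key : μ ≤ C • volume := by
    refine le_vol μ hC0 ENNReal.ofReal_ne_top fun a b => ?_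
    rw [hμ, Measure.map_apply measurable_norm measurableSet_Ioc,
      withDensity_apply _ (measurable_norm measurableSet_Ioc)]
    rcases lt_or_ge b (max a 0) with hb | hb
    · have : (fun η : En (m + 1) => ‖η‖) ⁻¹' Ioc a b = ∅ := by
        ext η
        simp only [mem_preimage, mem_Ioc, mem_empty_iff_false, iff_false, not_and, not_le]
        intro h
        exact lt_of_lt_of_le hb (max_le h.le (norm_nonneg _))
      rw [this]; simp
    · have hsub : (fun η : En (m + 1) => ‖η‖) ⁻¹' Ioc a b ⊆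
          shell (m + 1) (max a 0) b ∪ Metric.sphere 0 b := by
        rintro η ⟨h1, h2⟩
        rcases h2.lt_or_eq with h | h
        · exact Or.inl ⟨max_le h1.le (norm_nonneg _), h⟩
        · exact Or.inr (by simpa using h)
      have h0 : ∫⁻ η in Metric.sphere (0 : En (m + 1)) b, g η = 0 :=
        setLIntegral_measure_zero _ _ (Measure.addHaar_sphere volume (0 : En (m + 1)) b)
      have h1 := shell_bound (m := m) (r := max a 0) (δ := b - max a 0) (le_max_right _ _)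
        (by linarith) hc ξ
      rw [add_sub_cancel] at h1
      calc ∫⁻ η in (fun η : En (m + 1) => ‖η‖) ⁻¹' Ioc a b, g η
          ≤ ∫⁻ η in shell (m + 1) (max a 0) b ∪ Metric.sphere 0 b, g η := lintegral_mono_set hsub
        _ ≤ (∫⁻ η in shell (m + 1) (max a 0) b, g η) + ∫⁻ η in Metric.sphere 0 b, g η :=
            lintegral_union_le _ _ _
        _ ≤ ENNReal.ofReal (2 * (m + 1) * √(m + 1) * (b - max a 0) * (π / c) ^ ((m : ℝ) / 2)) := by
            rw [h0, add_zero]; exact h1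
        _ ≤ C * ENNReal.ofReal (b - a) := by
            rw [hC, ← ENNReal.ofReal_mul (by positivity)]
            refine ENNReal.ofReal_le_ofReal ?_
            have h2 : b - max a 0 ≤ b - a := by linarith [le_max_left a 0]
            have h3 : 0 ≤ 2 * ((m : ℝ) + 1) * √(m + 1) * (π / c) ^ ((m : ℝ) / 2) := by positivity
            nlinarith
  have e1 : ∫⁻ η : En (m + 1), v ‖η‖ * g η = ∫⁻ r, (Ici (0 : ℝ)).indicator v r ∂μ := by
    rw [hμ, lintegral_map (hv.indicator measurableSet_Ici) measurable_norm]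
    refine Eq.trans ?_ (lintegral_withDensity_eq_lintegral_mul (volume : Measure (En (m + 1))) hgm
      ((hv.indicator measurableSet_Ici).comp measurable_norm)).symm
    refine lintegral_congr fun η => ?_
    simp only [Pi.mul_apply, Function.comp]
    rw [indicator_of_mem (show ‖η‖ ∈ Ici (0 : ℝ) from norm_nonneg _), mul_comm]
  rw [e1]
  calc ∫⁻ r, (Ici (0 : ℝ)).indicator v r ∂μ ≤ ∫⁻ r, (Ici (0 : ℝ)).indicator v r ∂(C • volume) :=
        lintegral_mono' key le_rfl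
    _ = C * ∫⁻ r in Ici 0, v r := by
        rw [lintegral_smul_measure, lintegral_indicator measurableSet_Ici, smul_eq_mul]

/-- the normalised kernel -/
lemma kern_v {m : ℕ} {ρ : ℝ} (hρ : 0 < ρ) (ξ : En (m + 1)) {v : ℝ → ℝ≥0∞} (hv : Measurable v) :
    ∫⁻ η : En (m + 1), v ‖η‖ * ENNReal.ofReal
      ((π / (1 / ρ ^ 2)) ^ (((m + 1 : ℕ) : ℝ) / 2) * rexp (-(π ^ 2 / (1 / ρ ^ 2)) * ‖ξ - η‖ ^ 2))
      ≤ ENNReal.ofReal (2 * (m + 1) * √(m + 1) * √π * ρ) * ∫⁻ r in Ici 0, v r := by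
  have hc : 0 < π ^ 2 / (1 / ρ ^ 2) := by positivity
  have h := radial_bound (m := m) hc ξ hv
  have hp : 0 < π / (1 / ρ ^ 2) := by positivity
  have e0 : ∀ η : En (m + 1), v ‖η‖ * ENNReal.ofReal
      ((π / (1 / ρ ^ 2)) ^ (((m + 1 : ℕ) : ℝ) / 2) * rexp (-(π ^ 2 / (1 / ρ ^ 2)) * ‖ξ - η‖ ^ 2))
      = ENNReal.ofReal ((π / (1 / ρ ^ 2)) ^ (((m + 1 : ℕ) : ℝ) / 2)) *
        (v ‖η‖ * ENNReal.ofReal (rexp (-(π ^ 2 / (1 / ρ ^ 2)) * ‖ξ - η‖ ^ 2))) := by
    intro η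
    rw [ENNReal.ofReal_mul (rpow_nonneg hp.le _)]
    ring
  simp_rw [e0]
  rw [lintegral_const_mul' _ _ ENNReal.ofReal_ne_top]
  refine (mul_le_mul_right h _).trans ?_
  rw [← mul_assoc, ← ENNReal.ofReal_mul (rpow_nonneg hp.le _)]
  refine mul_le_mul_left (ENNReal.ofReal_le_ofReal (le_of_eq ?_)) _
  have e1 : π / (π ^ 2 / (1 / ρ ^ 2)) = (π / (1 / ρ ^ 2))⁻¹ := by
    field_simp
  rw [e1, Real.inv_rpow hp.le]
  have e2 : (π / (1 / ρ ^ 2)) ^ (((m + 1 : ℕ) : ℝ) / 2)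
      = (π / (1 / ρ ^ 2)) ^ ((m : ℝ) / 2) * (√π * ρ) := by
    have : (((m + 1 : ℕ) : ℝ) / 2) = (m : ℝ) / 2 + 1 / 2 := by push_cast; ring
    rw [this, Real.rpow_add hp]
    congr 1
    rw [← Real.sqrt_eq_rpow, show π / (1 / ρ ^ 2) = π * ρ ^ 2 by field_simp,
      Real.sqrt_mul pi_pos.le, Real.sqrt_sq hρ.le]
  rw [e2]
  have h3 : (π / (1 / ρ ^ 2)) ^ ((m : ℝ) / 2) ≠ 0 := (rpow_pos_of_pos hp _).ne'
  field_simp

/-- **weighted local `L²` estimate**, for `F` which vanishes where the weight does -/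
theorem local_v0 {m : ℕ} {ρ : ℝ} (hρ : 0 < ρ) {F : En (m + 1) → ℂ} (hFi : Integrable F)
    {v : ℝ → ℝ≥0} (hv : Measurable v) (h0 : ∀ ξ, v ‖ξ‖ = 0 → F ξ = 0) :
    ∫⁻ x in Metric.closedBall (0 : En (m + 1)) ρ, ‖Fi F x‖ₑ ^ 2
      ≤ ENNReal.ofReal (10 * (m + 1) * √(m + 1) * ρ) * (∫⁻ r in Ici 0, (v r : ℝ≥0∞)) *
          ∫⁻ ξ, ‖F ξ‖ₑ ^ 2 / v ‖ξ‖ := by
  set b : ℝ := 1 / ρ ^ 2 with hb
  have hb0 : 0 < b := by positivity
  set K : En (m + 1) → En (m + 1) → ℝ := fun ξ η =>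
    (π / b) ^ (((m + 1 : ℕ) : ℝ) / 2) * rexp (-(π ^ 2 / b) * ‖ξ - η‖ ^ 2) with hK
  have hK0 : ∀ ξ η, 0 ≤ K ξ η := fun ξ η => by rw [hK]; positivity
  have hKs : ∀ ξ η, K ξ η = K η ξ := fun ξ η => by simp only [hK, norm_sub_rev ξ η]
  have hKc : Continuous (fun z : En (m + 1) × En (m + 1) => K z.1 z.2) := by
    simp only [hK]; fun_prop
  have hvn : Measurable fun ξ : En (m + 1) => (v ‖ξ‖ : ℝ≥0∞) :=
    (measurable_coe_nnreal_ennreal.comp hv).comp measurable_norm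
  -- step 1
  have i1 : Integrable (fun x => ‖Fi F x‖ ^ 2 * rexp (-b * ‖x‖ ^ 2)) := by
    refine (gint hb0).bdd_mul (c := (∫ ξ, ‖F ξ‖) ^ 2) ?_ ?_
    · exact ((Fi_cont hFi).norm.pow 2).aestronglyMeasurable
    · refine Eventually.of_forall fun x => ?_
      rw [norm_pow, norm_norm]
      exact pow_le_pow_left₀ (norm_nonneg _) (Fi_bdd x) 2
  have s1 : ∫⁻ x in Metric.closedBall (0 : En (m + 1)) ρ, ‖Fi F x‖ₑ ^ 2
      ≤ ENNReal.ofReal (rexp 1) * ENNReal.ofReal (∫ x, ‖Fi F x‖ ^ 2 * rexp (-b * ‖x‖ ^ 2)) := by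
    rw [ofReal_integral_eq_lintegral_ofReal i1 (Eventually.of_forall fun x => by positivity),
      ← lintegral_const_mul' _ _ ENNReal.ofReal_ne_top, ← lintegral_indicator
      Metric.isClosed_closedBall.measurableSet]
    refine lintegral_mono fun x => ?_
    rw [Set.indicator]
    split_ifs with hx
    · have hx' : ‖x‖ ≤ ρ := by simpa using hx
      rw [← ENNReal.ofReal_mul (exp_pos _).le, ← ofReal_norm, ← ENNReal.ofReal_pow
        (norm_nonneg _)]
      refine ENNReal.ofReal_le_ofReal ?_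
      have h1 : 1 ≤ rexp 1 * rexp (-b * ‖x‖ ^ 2) := by
        rw [← Real.exp_add]
        refine Real.one_le_exp ?_
        have : b * ‖x‖ ^ 2 ≤ 1 := by
          rw [hb, one_div, inv_mul_le_iff₀ (by positivity), mul_one]
          exact pow_le_pow_left₀ (norm_nonneg _) hx' 2
        linarith
      calc ‖Fi F x‖ ^ 2 = ‖Fi F x‖ ^ 2 * 1 := (mul_one _).symm
        _ ≤ ‖Fi F x‖ ^ 2 * (rexp 1 * rexp (-b * ‖x‖ ^ 2)) :=
            mul_le_mul_of_nonneg_left h1 (by positivity)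
        _ = _ := by ring
    · exact zero_le
  -- step 2
  have s2 : ENNReal.ofReal (∫ x, ‖Fi F x‖ ^ 2 * rexp (-b * ‖x‖ ^ 2)) ≤
      ∫⁻ z : En (m + 1) × En (m + 1), ENNReal.ofReal (‖F z.1‖ * ‖F z.2‖ * K z.1 z.2) := by
    refine (ENNReal.ofReal_le_ofReal (pairing hb0 hFi)).trans ?_
    rw [integral_eq_lintegral_of_nonneg_ae]
    · exact ENNReal.ofReal_toReal_le
    · exact Eventually.of_forall fun z => mul_nonneg (by positivity) (hK0 _ _)
    · rw [Measure.volume_eq_prod]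
      exact ((hFi.aestronglyMeasurable.norm.comp_fst).mul
        (hFi.aestronglyMeasurable.norm.comp_snd)).mul hKc.aestronglyMeasurable
  -- step 3
  have hw : AEMeasurable (fun ξ : En (m + 1) => ‖F ξ‖ₑ ^ 2 / v ‖ξ‖) :=
    (hFi.aestronglyMeasurable.enorm.pow_const 2).div hvn.aemeasurable
  have hm1 : AEMeasurable (fun z : En (m + 1) × En (m + 1) =>
      ‖F z.1‖ₑ ^ 2 / v ‖z.1‖ * (v ‖z.2‖ * ENNReal.ofReal (K z.1 z.2))) (volume.prod volume) := by
    have q1 : Measurable fun z : En (m + 1) × En (m + 1) =>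
        (v ‖z.2‖ : ℝ≥0∞) * ENNReal.ofReal (K z.1 z.2) :=
      (hvn.comp measurable_snd).mul (ENNReal.measurable_ofReal.comp hKc.measurable)
    exact (hw.comp_fst).mul q1.aemeasurable
  have hm2 : AEMeasurable (fun z : En (m + 1) × En (m + 1) =>
      ‖F z.2‖ₑ ^ 2 / v ‖z.2‖ * (v ‖z.1‖ * ENNReal.ofReal (K z.1 z.2))) (volume.prod volume) := by
    have q1 : Measurable fun z : En (m + 1) × En (m + 1) =>
        (v ‖z.1‖ : ℝ≥0∞) * ENNReal.ofReal (K z.1 z.2) :=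
      (hvn.comp measurable_fst).mul (ENNReal.measurable_ofReal.comp hKc.measurable)
    exact (hw.comp_snd).mul q1.aemeasurable
  set A : ℝ≥0∞ := ENNReal.ofReal (2 * (m + 1) * √(m + 1) * √π * ρ) * ∫⁻ r in Ici 0, (v r : ℝ≥0∞)
    with hA
  have hker : ∀ ξ, ∫⁻ η : En (m + 1), (v ‖η‖ : ℝ≥0∞) * ENNReal.ofReal (K ξ η) ≤ A := fun ξ =>
    kern_v hρ ξ (v := fun r => (v r : ℝ≥0∞)) (measurable_coe_nnreal_ennreal.comp hv)
  have t1 : ∫⁻ z : En (m + 1) × En (m + 1),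
      ‖F z.1‖ₑ ^ 2 / v ‖z.1‖ * (v ‖z.2‖ * ENNReal.ofReal (K z.1 z.2))
      ≤ A * ∫⁻ ξ, ‖F ξ‖ₑ ^ 2 / v ‖ξ‖ := by
    rw [Measure.volume_eq_prod, lintegral_prod _ hm1, ← lintegral_const_mul'' _ hw]
    refine lintegral_mono fun ξ => ?_
    simp only
    rw [lintegral_const_mul'' , mul_comm]
    · exact mul_le_mul_left (hker ξ) _
    · refine AEMeasurable.mul hvn.aemeasurable ?_
      exact (ENNReal.measurable_ofReal.comp (hKc.comp
        (by fun_prop : Continuous fun η : En (m + 1) => (ξ, η))).measurable).aemeasurable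
  have t2 : ∫⁻ z : En (m + 1) × En (m + 1),
      ‖F z.2‖ₑ ^ 2 / v ‖z.2‖ * (v ‖z.1‖ * ENNReal.ofReal (K z.1 z.2))
      ≤ A * ∫⁻ ξ, ‖F ξ‖ₑ ^ 2 / v ‖ξ‖ := by
    rw [Measure.volume_eq_prod, lintegral_prod_symm _ hm2, ← lintegral_const_mul'' _ hw]
    refine lintegral_mono fun ξ => ?_
    simp only
    rw [lintegral_const_mul'' , mul_comm]
    · refine mul_le_mul_left (le_trans (le_of_eq ?_) (hker ξ)) _
      refine lintegral_congr fun η => ?_
      rw [hKs η ξ]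
    · refine AEMeasurable.mul hvn.aemeasurable ?_
      exact (ENNReal.measurable_ofReal.comp (hKc.comp
        (by fun_prop : Continuous fun η : En (m + 1) => (η, ξ))).measurable).aemeasurable
  have s3 : ∫⁻ z : En (m + 1) × En (m + 1), ENNReal.ofReal (‖F z.1‖ * ‖F z.2‖ * K z.1 z.2)
      ≤ A * ∫⁻ ξ, ‖F ξ‖ₑ ^ 2 / v ‖ξ‖ := by
    have h1 : ∀ z : En (m + 1) × En (m + 1),
        ENNReal.ofReal (‖F z.1‖ * ‖F z.2‖ * K z.1 z.2) ≤
        ENNReal.ofReal (1 / 2) * (‖F z.1‖ₑ ^ 2 / v ‖z.1‖ *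
          (v ‖z.2‖ * ENNReal.ofReal (K z.1 z.2))) +
        ENNReal.ofReal (1 / 2) * (‖F z.2‖ₑ ^ 2 / v ‖z.2‖ *
          (v ‖z.1‖ * ENNReal.ofReal (K z.1 z.2))) := by
      rintro ⟨x, y⟩
      simp only
      by_cases hx : v ‖x‖ = 0
      · rw [h0 x hx]; simp
      by_cases hy : v ‖y‖ = 0
      · rw [h0 y hy]; simp
      have px : (0 : ℝ) < v ‖x‖ := by exact_mod_cast pos_iff_ne_zero.2 hx
      have py : (0 : ℝ) < v ‖y‖ := by exact_mod_cast pos_iff_ne_zero.2 hy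
      have ex : (v ‖x‖ : ℝ≥0∞) = ENNReal.ofReal (v ‖x‖) := (ENNReal.ofReal_coe_nnreal).symm
      have ey : (v ‖y‖ : ℝ≥0∞) = ENNReal.ofReal (v ‖y‖) := (ENNReal.ofReal_coe_nnreal).symm
      rw [ex, ey, ← ofReal_norm, ← ofReal_norm, ← ENNReal.ofReal_pow
        (norm_nonneg _), ← ENNReal.ofReal_pow (norm_nonneg _), ← ENNReal.ofReal_div_of_pos px,
        ← ENNReal.ofReal_div_of_pos py, ← ENNReal.ofReal_mul
        (by positivity), ← ENNReal.ofReal_mul (by positivity), ← ENNReal.ofReal_mul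
        (by positivity), ← ENNReal.ofReal_mul (by positivity), ← ENNReal.ofReal_mul (by positivity),
        ← ENNReal.ofReal_mul (by positivity), ← ENNReal.ofReal_add
        (by have := hK0 x y; positivity) (by have := hK0 x y; positivity)]
      refine ENNReal.ofReal_le_ofReal ?_
      have hk := hK0 x y
      have h2 : ‖F x‖ * ‖F y‖ ≤ 1 / 2 * (‖F x‖ ^ 2 / v ‖x‖ * v ‖y‖) +
          1 / 2 * (‖F y‖ ^ 2 / v ‖y‖ * v ‖x‖) := by
        rw [← sub_nonneg]
        have e : 1 / 2 * (‖F x‖ ^ 2 / v ‖x‖ * v ‖y‖) + 1 / 2 * (‖F y‖ ^ 2 / v ‖y‖ * v ‖x‖) -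
            ‖F x‖ * ‖F y‖ = (‖F x‖ * v ‖y‖ - ‖F y‖ * v ‖x‖) ^ 2 / (2 * v ‖x‖ * v ‖y‖) := by
          field_simp
          ring
        rw [e]
        positivity
      calc ‖F x‖ * ‖F y‖ * K x y ≤ (1 / 2 * (‖F x‖ ^ 2 / v ‖x‖ * v ‖y‖) +
          1 / 2 * (‖F y‖ ^ 2 / v ‖y‖ * v ‖x‖)) * K x y := mul_le_mul_of_nonneg_right h2 hk
        _ = _ := by ring
    refine (lintegral_mono h1).trans ?_
    rw [Measure.volume_eq_prod] at t1 t2 ⊢
    rw [lintegral_add_left' (hm1.const_mul _), lintegral_const_mul'' _ hm1,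
      lintegral_const_mul'' _ hm2]
    refine (add_le_add (mul_le_mul_right t1 _) (mul_le_mul_right t2 _)).trans (le_of_eq ?_)
    rw [← add_mul, ← ENNReal.ofReal_add (by norm_num) (by norm_num)]
    norm_num
  refine s1.trans ((mul_le_mul_right (s2.trans s3) _).trans ?_)
  rw [← mul_assoc]
  refine mul_le_mul_left ?_ _
  rw [hA, ← mul_assoc, ← ENNReal.ofReal_mul (exp_pos _).le]
  refine mul_le_mul_left (ENNReal.ofReal_le_ofReal ?_) _
  have he : rexp 1 * (2 * √π) ≤ 10 := by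
    have h1 : rexp 1 < 2.7182818286 := Real.exp_one_lt_d9
    have h2 : √π ≤ 1.7726 := by
      rw [Real.sqrt_le_left (by norm_num)]
      have := Real.pi_lt_d4
      norm_num
      linarith
    have h3 : 0 ≤ √π := Real.sqrt_nonneg _
    nlinarith [exp_pos (1 : ℝ)]
  calc rexp 1 * (2 * (m + 1) * √(m + 1) * √π * ρ)
      = (rexp 1 * (2 * √π)) * ((m + 1) * √(m + 1) * ρ) := by ring
    _ ≤ 10 * ((m + 1) * √(m + 1) * ρ) := by
        refine mul_le_mul_of_nonneg_right he (by positivity)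
    _ = _ := by ring

end Pool.Agent.U588.Sph
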