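import Mathlib
import Pool.Agent.Helper93.Sph.F
import Pool.Agent.U588.SphA

/-! The maximal partial sums with a radial weight. -/

set_option autoImplicit false

open MeasureTheory Real Set Filter Topology
open scoped ENNReal NNReal RealInnerProductSpace

namespace Pool.Agent.U588.Sph

open Pool.Agent.Helper93.Sph

/-- increments over a shell, on a ball of radius `ρ`, with a weight -/
lemma incr_v {m : ℕ} {G : En (m + 1) → ℂ} (hG : MemLp G 2) {v : ℝ → ℝ≥0} (hv : Measurable v)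
    (h0 : ∀ ξ, v ‖ξ‖ = 0 → G ξ = 0) {R R' : ℝ} (hR : 0 ≤ R) (h : R ≤ R')
    (x₀ : En (m + 1)) {ρ : ℝ} (hρ : 0 < ρ) :
    ∫⁻ x in Metric.closedBall x₀ ρ, ‖ps G R' x - ps G R x‖ₑ ^ 2
      ≤ ENNReal.ofReal (10 * (m + 1) * √(m + 1) * ρ) * (∫⁻ r in Ico R R', (v r : ℝ≥0∞)) *
          ∫⁻ ξ in shell (m + 1) R R', ‖G ξ‖ₑ ^ 2 / v ‖ξ‖ := by
  set G' : En (m + 1) → ℂ := fun ξ => ek x₀ ξ * G ξ with hG'd
  have hG' : MemLp G' 2 := by
    refine (memLp_congr_norm ?_ hG.aestronglyMeasurable ?_).2 hG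
    · exact ((ek_cont.comp (by fun_prop : Continuous fun ξ : En (m + 1) => (x₀, ξ))
        ).aestronglyMeasurable).mul hG.aestronglyMeasurable
    · refine Eventually.of_forall fun ξ => ?_
      rw [hG'd]
      simp only
      rw [norm_mul, ek_norm, one_mul]
  have e1 : ∫⁻ x in Metric.closedBall x₀ ρ, ‖ps G R' x - ps G R x‖ₑ ^ 2
      = ∫⁻ y in Metric.closedBall (0 : En (m + 1)) ρ,
        ‖Fi ((shell (m + 1) R R').indicator G') y‖ₑ ^ 2 := by
    rw [← lintegral_indicator Metric.isClosed_closedBall.measurableSet,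
      ← lintegral_indicator Metric.isClosed_closedBall.measurableSet,
      ← lintegral_add_left_eq_self _ x₀]
    refine lintegral_congr fun y => ?_
    have hiff : x₀ + y ∈ Metric.closedBall x₀ ρ ↔ y ∈ Metric.closedBall (0 : En (m + 1)) ρ := by
      simp
    by_cases hy : y ∈ Metric.closedBall (0 : En (m + 1)) ρ
    · rw [indicator_of_mem hy, indicator_of_mem (hiff.2 hy), ps_sub hG hR h]
      congr 2
      rw [Fi, Fi]
      refine integral_congr_ae (Eventually.of_forall fun ξ => ?_)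
      simp only
      by_cases hξ : ξ ∈ shell (m + 1) R R'
      · rw [indicator_of_mem hξ, indicator_of_mem hξ, ek_add]; ring
      · rw [indicator_of_notMem hξ, indicator_of_notMem hξ]; simp
    · rw [indicator_of_notMem hy, indicator_of_notMem (fun h' => hy (hiff.1 h'))]
  rw [e1]
  set v' : ℝ → ℝ≥0 := (Ico R R').indicator v with hv'
  have hv'm : Measurable v' := hv.indicator measurableSet_Ico
  have hmem : ∀ ξ : En (m + 1), ξ ∈ shell (m + 1) R R' ↔ ‖ξ‖ ∈ Ico R R' := fun ξ => Iff.rfl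
  have h0' : ∀ ξ, v' ‖ξ‖ = 0 → (shell (m + 1) R R').indicator G' ξ = 0 := by
    intro ξ hξ
    by_cases hs : ξ ∈ shell (m + 1) R R'
    · rw [hv', indicator_of_mem ((hmem ξ).1 hs)] at hξ
      rw [indicator_of_mem hs, hG'd]
      simp only
      rw [h0 ξ hξ, mul_zero]
    · rw [indicator_of_notMem hs]
  refine (local_v0 hρ (ind_int hG' R R') hv'm h0').trans (le_of_eq ?_)
  congr 1
  · congr 1
    rw [← lintegral_indicator measurableSet_Ici, ← lintegral_indicator measurableSet_Ico]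
    refine lintegral_congr fun r => ?_
    by_cases hr : r ∈ Ico R R'
    · rw [indicator_of_mem (show r ∈ Ici (0 : ℝ) from hR.trans hr.1), indicator_of_mem hr, hv',
        indicator_of_mem hr]
    · rw [indicator_of_notMem hr]
      by_cases hr0 : r ∈ Ici (0 : ℝ)
      · rw [indicator_of_mem hr0, hv', indicator_of_notMem hr]; simp
      · rw [indicator_of_notMem hr0]
  · rw [← lintegral_indicator (shell_meas _ _ _)]
    refine lintegral_congr fun ξ => ?_
    by_cases hs : ξ ∈ shell (m + 1) R R'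
    · rw [indicator_of_mem hs, indicator_of_mem hs, hv', indicator_of_mem ((hmem ξ).1 hs), hG'd]
      simp only
      rw [enorm_mul, ← ofReal_norm (ek x₀ ξ), ek_norm]
      simp
    · rw [indicator_of_notMem hs, indicator_of_notMem hs]
      simp

lemma ps_zero {m : ℕ} (G : En (m + 1) → ℂ) (x : En (m + 1)) : ps G 0 x = 0 := by
  rw [ps_eq]
  have : shell (m + 1) 0 0 = ∅ := by
    ext ξ
    simp only [shell, mem_ofPred_eq, mem_empty_iff_false, iff_false, not_and, not_lt]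
    intro h
    exact h
  rw [this, indicator_empty, Fi]
  simp

/-- Cauchy-Schwarz with weights -/
lemma titu (d : ℕ → ℂ) (a : ℕ → ℝ) (ha : ∀ i, 0 < a i) {k N : ℕ} (hkN : k ≤ N) :
    ‖∑ i ∈ Finset.range k, d i‖ₑ ^ 2 ≤ (∑ i ∈ Finset.range N, ENNReal.ofReal (a i)) *
      ∑ i ∈ Finset.range N, ‖d i‖ₑ ^ 2 / ENNReal.ofReal (a i) := by
  have h1 : ‖∑ i ∈ Finset.range k, d i‖ ^ 2 ≤ (∑ i ∈ Finset.range N, a i) *
      ∑ i ∈ Finset.range N, ‖d i‖ ^ 2 / a i := by
    have h2 : ‖∑ i ∈ Finset.range k, d i‖ ≤ ∑ i ∈ Finset.range N, ‖d i‖ :=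
      (norm_sum_le _ _).trans (Finset.sum_le_sum_of_subset_of_nonneg
        (Finset.range_mono hkN) fun i _ _ => norm_nonneg _)
    refine (pow_le_pow_left₀ (norm_nonneg _) h2 2).trans ?_
    refine Finset.sum_sq_le_sum_mul_sum_of_sq_eq_mul _ (fun i _ => (ha i).le)
      (fun i _ => by have := ha i; positivity) fun i _ => ?_
    have := (ha i).ne'
    field_simp
  have h3 := ENNReal.ofReal_le_ofReal h1
  rw [ENNReal.ofReal_pow (norm_nonneg _), ofReal_norm, ENNReal.ofReal_mul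
    (Finset.sum_nonneg fun i _ => (ha i).le), ENNReal.ofReal_sum_of_nonneg (fun i _ => (ha i).le),
    ENNReal.ofReal_sum_of_nonneg (fun i _ => by have := ha i; positivity)] at h3
  refine h3.trans (le_of_eq ?_)
  congr 1
  refine Finset.sum_congr rfl fun i _ => ?_
  rw [ENNReal.ofReal_div_of_pos (ha i), ENNReal.ofReal_pow (norm_nonneg _), ofReal_norm]

/-- the maximum over finitely many radii -/
lemma fin_max {m : ℕ} {G : En (m + 1) → ℂ} (hG : MemLp G 2) {v : ℝ → ℝ≥0} (hv : Measurable v)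
    (hpos : ∀ r, 0 < v r) (hA : ∫⁻ r in Ici 0, (v r : ℝ≥0∞) ≠ ∞) (x₀ : En (m + 1)) {ρ : ℝ}
    (hρ : 0 < ρ) (R : ℕ → ℝ) (hR : StrictMono R) (hR0 : R 0 = 0) (N : ℕ) :
    ∫⁻ x in Metric.closedBall x₀ ρ, (⨆ i : Fin (N + 1), ‖ps G (R i) x‖ₑ ^ 2)
      ≤ ENNReal.ofReal (10 * (m + 1) * √(m + 1) * ρ) * (∫⁻ r in Ici 0, (v r : ℝ≥0∞)) *
          ∫⁻ ξ, ‖G ξ‖ₑ ^ 2 / v ‖ξ‖ := by
  set a : ℕ → ℝ≥0∞ := fun i => ∫⁻ r in Ico (R i) (R (i + 1)), (v r : ℝ≥0∞) with ha
  have hRn : ∀ i, 0 ≤ R i := fun i => by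
    rw [← hR0]; exact hR.monotone (Nat.zero_le i)
  have hvm : Measurable fun r => (v r : ℝ≥0∞) := measurable_coe_nnreal_ennreal.comp hv
  have hdisj : Pairwise (Function.onFun Disjoint fun i => Ico (R i) (R (i + 1))) := by
    exact hR.monotone.pairwise_disjoint_on_Ico_succ
  have hsum : ∀ N, ∑ i ∈ Finset.range N, a i ≤ ∫⁻ r in Ici 0, (v r : ℝ≥0∞) := by
    intro N
    rw [ha]
    simp only
    rw [← lintegral_biUnion_finset (fun i _ j _ hij => hdisj hij) (fun i _ => measurableSet_Ico)]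
    refine lintegral_mono_set ?_
    intro r hr
    simp only [mem_iUnion] at hr
    obtain ⟨i, _, hi⟩ := hr
    exact (hRn i).trans hi.1
  have haf : ∀ i, a i ≠ ∞ := by
    intro i
    have h1 := hsum (i + 1)
    rw [Finset.sum_range_succ] at h1
    exact ne_top_of_le_ne_top hA (le_add_self.trans h1)
  have ha0 : ∀ i, a i ≠ 0 := by
    intro i
    rw [ha]
    simp only
    rw [← pos_iff_ne_zero, setLIntegral_pos_iff hvm]
    have : (Function.support fun r => (v r : ℝ≥0∞)) = univ := by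
      ext r
      simp only [Function.mem_support, ne_eq, ENNReal.coe_eq_zero, mem_univ, iff_true]
      exact (hpos r).ne'
    rw [this, univ_inter, Real.volume_Ico]
    simp only [ENNReal.ofReal_pos]
    linarith [hR (Nat.lt_succ_self i)]
  have har : ∀ i, 0 < (a i).toReal := fun i => ENNReal.toReal_pos (ha0 i) (haf i)
  have hae : ∀ i, ENNReal.ofReal (a i).toReal = a i := fun i => ENNReal.ofReal_toReal (haf i)
  have hpt : ∀ x, (⨆ i : Fin (N + 1), ‖ps G (R i) x‖ₑ ^ 2) ≤ (∑ i ∈ Finset.range N, a i) *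
      ∑ i ∈ Finset.range N, ‖ps G (R (i + 1)) x - ps G (R i) x‖ₑ ^ 2 / a i := by
    intro x
    refine iSup_le fun k => ?_
    have h1 : ps G (R k) x = ∑ i ∈ Finset.range (k : ℕ), (ps G (R (i + 1)) x - ps G (R i) x) := by
      rw [Finset.sum_range_sub (fun i => ps G (R i) x), hR0, ps_zero, sub_zero]
    rw [h1]
    have h2 := titu (fun i => ps G (R (i + 1)) x - ps G (R i) x) (fun i => (a i).toReal) har
      (k := k) (N := N) (Nat.lt_succ_iff.1 k.2)
    simp only [hae] at h2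
    exact h2
  refine (lintegral_mono hpt).trans ?_
  have hms : ∀ i, Measurable fun x => ‖ps G (R (i + 1)) x - ps G (R i) x‖ₑ ^ 2 / a i := fun i =>
    (((ps_cont_x hG _).sub (ps_cont_x hG _)).measurable.enorm.pow_const 2).div_const _
  rw [lintegral_const_mul _ (Finset.measurable_sum _ fun i _ => hms i),
    lintegral_finsetSum _ fun i _ => hms i]
  have hterm : ∀ i, ∫⁻ x in Metric.closedBall x₀ ρ,
      ‖ps G (R (i + 1)) x - ps G (R i) x‖ₑ ^ 2 / a i ≤
      ENNReal.ofReal (10 * (m + 1) * √(m + 1) * ρ) *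
        ∫⁻ ξ in shell (m + 1) (R i) (R (i + 1)), ‖G ξ‖ₑ ^ 2 / v ‖ξ‖ := by
    intro i
    have h1 := incr_v hG hv (fun ξ h => absurd h (hpos _).ne') (hRn i)
      (hR.monotone (Nat.le_succ i)) x₀ hρ
    simp only [Nat.succ_eq_add_one] at h1
    simp_rw [div_eq_mul_inv (‖ps G (R (i + 1)) _ - ps G (R i) _‖ₑ ^ 2)]
    rw [lintegral_mul_const' _ _ (ENNReal.inv_ne_top.2 (ha0 i)), ← div_eq_mul_inv]
    refine ENNReal.div_le_of_le_mul ?_
    refine h1.trans (le_of_eq ?_)
    have : (∫⁻ r in Ico (R i) (R (i + 1)), (v r : ℝ≥0∞)) = a i := rfl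
    rw [this]
    ring
  refine (mul_le_mul' (hsum N) (Finset.sum_le_sum fun i _ => hterm i)).trans ?_
  rw [← Finset.mul_sum, ← mul_assoc, mul_comm (∫⁻ r in Ici 0, (v r : ℝ≥0∞))]
  refine mul_le_mul' le_rfl ?_
  rw [← lintegral_biUnion_finset ?_ (fun i _ => shell_meas _ _ _)]
  · exact setLIntegral_le_lintegral _ _
  · intro i _ j _ hij
    have h1 := hdisj hij
    simp only [Function.onFun] at h1 ⊢
    rw [Set.disjoint_left] at h1 ⊢
    intro ξ h2 h3
    exact h1 h2 h3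

end Pool.Agent.U588.Sph
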