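import Mathlib
import Pool.Agent.U588.SphB

/-! The maximal inequality with a radial weight, and convergence almost everywhere. -/

set_option autoImplicit false

open MeasureTheory Real Set Filter Topology
open scoped ENNReal NNReal RealInnerProductSpace

namespace Pool.Agent.U588.Sph

open Pool.Agent.Helper93.Sph

/-- maximum over the grid `i / 2 ^ j`, `i ≤ 4 ^ j` -/
noncomputable def gmax {n : ℕ} (G : En n → ℂ) (j : ℕ) (x : En n) : ℝ≥0∞ :=
  ⨆ i : Fin (4 ^ j + 1), ‖ps G ((i : ℝ) / 2 ^ j) x‖ₑ ^ 2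

lemma gmax_mono {n : ℕ} (G : En n → ℂ) : Monotone (gmax G) := by
  refine monotone_nat_of_le_succ fun j x => ?_
  refine iSup_le fun i => ?_
  have h1 : 2 * (i : ℕ) < 4 ^ (j + 1) + 1 := by
    have := i.2
    rw [pow_succ]
    omega
  have h2 : ((i : ℕ) : ℝ) / 2 ^ j = (((⟨2 * (i : ℕ), h1⟩ : Fin (4 ^ (j + 1) + 1)) : ℕ) : ℝ) /
      2 ^ (j + 1) := by
    simp only
    push_cast
    rw [pow_succ]
    field_simp
  rw [h2]
  exact le_iSup (fun i : Fin (4 ^ (j + 1) + 1) => ‖ps G (((i : ℕ) : ℝ) / 2 ^ (j + 1)) x‖ₑ ^ 2)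
    ⟨2 * (i : ℕ), h1⟩

lemma gmax_meas {m : ℕ} {G : En (m + 1) → ℂ} (hG : MemLp G 2) (j : ℕ) :
    Measurable (gmax G j) := by
  unfold gmax
  exact Measurable.iSup fun i => ((ps_cont_x hG _).measurable.enorm.pow_const 2)

lemma ps_neg {n : ℕ} (G : En n → ℂ) {R : ℝ} (hR : R < 0) (x : En n) : ps G R x = 0 := by
  rw [ps, Metric.closedBall_eq_empty.2 hR]
  simp

lemma sup_eq {m : ℕ} {G : En (m + 1) → ℂ} (hG : MemLp G 2) (x : En (m + 1)) :
    (⨆ R : ℝ, ‖ps G R x‖ₑ) ^ 2 = ⨆ j, gmax G j x := by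
  rw [ENNReal.iSup_pow_of_ne_zero two_ne_zero]
  refine le_antisymm (iSup_le fun R => ?_) (iSup_le fun j => iSup_le fun i =>
    le_iSup (fun R : ℝ => ‖ps G R x‖ₑ ^ 2) _)
  rcases lt_or_ge R 0 with hR | hR
  · rw [ps_neg G hR]; simp
  have h1 := dyad_tendsto hR
  have h2 : Tendsto (fun j : ℕ => ‖ps G ((⌊R * 2 ^ j⌋₊ : ℝ) / 2 ^ j) x‖ₑ ^ 2) atTop
      (𝓝 (‖ps G R x‖ₑ ^ 2)) := by
    have h3 := ((ps_cont_R hG x).tendsto R).comp h1
    exact ENNReal.Tendsto.pow h3.enorm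
  refine le_of_tendsto h2 ?_
  obtain ⟨N, hN⟩ := exists_nat_ge R
  filter_upwards [eventually_ge_atTop N] with j hj
  have h4 : ⌊R * 2 ^ j⌋₊ < 4 ^ j + 1 := by
    refine Nat.lt_succ_of_le (Nat.floor_le_of_le ?_)
    have h5 : R ≤ 2 ^ j := by
      have h6 : (N : ℝ) ≤ 2 ^ N := by exact_mod_cast Nat.lt_two_pow_self.le
      have h7 : (2 : ℝ) ^ N ≤ 2 ^ j := pow_le_pow_right₀ (by norm_num) hj
      linarith
    push_cast
    rw [show (4 : ℝ) ^ j = 2 ^ j * 2 ^ j by rw [← mul_pow]; norm_num]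
    exact mul_le_mul_of_nonneg_right h5 (by positivity)
  refine le_trans ?_ (le_iSup (fun j => gmax G j x) j)
  exact le_iSup (fun i : Fin (4 ^ j + 1) => ‖ps G ((i : ℝ) / 2 ^ j) x‖ₑ ^ 2) ⟨_, h4⟩

lemma sup_meas {m : ℕ} {G : En (m + 1) → ℂ} (hG : MemLp G 2) :
    Measurable fun x => (⨆ R : ℝ, ‖ps G R x‖ₑ) ^ 2 := by
  have : (fun x => (⨆ R : ℝ, ‖ps G R x‖ₑ) ^ 2) = fun x => ⨆ j, gmax G j x :=
    funext fun x => sup_eq hG x
  rw [this]
  exact Measurable.iSup fun j => gmax_meas hG j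

/-- positive weights -/
lemma max_pos {m : ℕ} {G : En (m + 1) → ℂ} (hG : MemLp G 2) {v : ℝ → ℝ≥0} (hv : Measurable v)
    (hpos : ∀ r, 0 < v r) (hA : ∫⁻ r in Ici 0, (v r : ℝ≥0∞) ≠ ∞) (x₀ : En (m + 1)) {ρ : ℝ}
    (hρ : 0 < ρ) :
    ∫⁻ x in Metric.closedBall x₀ ρ, (⨆ R : ℝ, ‖ps G R x‖ₑ) ^ 2
      ≤ ENNReal.ofReal (10 * (m + 1) * √(m + 1) * ρ) * (∫⁻ r in Ici 0, (v r : ℝ≥0∞)) *
          ∫⁻ ξ, ‖G ξ‖ₑ ^ 2 / v ‖ξ‖ := by
  simp_rw [sup_eq hG]
  rw [lintegral_iSup (fun j => gmax_meas hG j) (fun i j hij x => gmax_mono G hij x)]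
  refine iSup_le fun j => ?_
  refine fin_max hG hv hpos hA x₀ hρ (fun i => (i : ℝ) / 2 ^ j) ?_ (by simp) (4 ^ j)
  intro a b hab
  have : (0 : ℝ) < 2 ^ j := by positivity
  exact div_lt_div_of_pos_right (by exact_mod_cast hab) this

lemma exp_int : ∫⁻ r in Ici (0 : ℝ), ENNReal.ofReal (rexp (-r)) = 1 := by
  rw [setLIntegral_congr Ioi_ae_eq_Ici.symm,
    ← ofReal_integral_eq_lintegral_ofReal (integrableOn_exp_neg_Ioi 0)
    (Eventually.of_forall fun _ => (exp_pos _).le), integral_exp_neg_Ioi_zero]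
  simp

/-- **the maximal inequality with a radial weight** -/
theorem max_v {m : ℕ} {G : En (m + 1) → ℂ} (hG : MemLp G 2) {v : ℝ → ℝ≥0} (hv : Measurable v)
    (hB : ∫⁻ ξ, ‖G ξ‖ₑ ^ 2 / v ‖ξ‖ ≠ ∞) (x₀ : En (m + 1)) {ρ : ℝ} (hρ : 0 < ρ) :
    ∫⁻ x in Metric.closedBall x₀ ρ, (⨆ R : ℝ, ‖ps G R x‖ₑ) ^ 2
      ≤ ENNReal.ofReal (10 * (m + 1) * √(m + 1) * ρ) * (∫⁻ r in Ici 0, (v r : ℝ≥0∞)) *
          ∫⁻ ξ, ‖G ξ‖ₑ ^ 2 / v ‖ξ‖ := by
  set A := ∫⁻ r in Ici 0, (v r : ℝ≥0∞) with hA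
  set B := ∫⁻ ξ, ‖G ξ‖ₑ ^ 2 / v ‖ξ‖ with hBd
  have hvn : Measurable fun ξ : En (m + 1) => (v ‖ξ‖ : ℝ≥0∞) :=
    (measurable_coe_nnreal_ennreal.comp hv).comp measurable_norm
  have hw : AEMeasurable (fun ξ : En (m + 1) => ‖G ξ‖ₑ ^ 2 / v ‖ξ‖) :=
    (hG.aestronglyMeasurable.enorm.pow_const 2).div hvn.aemeasurable
  have hK : ENNReal.ofReal (10 * (m + 1) * √(m + 1) * ρ) ≠ 0 := by
    simp only [ne_eq, ENNReal.ofReal_eq_zero, not_le]
    positivity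
  by_cases hAt : A = ∞
  · by_cases hB0 : B = 0
    · -- `G` vanishes almost everywhere
      have h1 : ∀ᵐ ξ : En (m + 1), G ξ = 0 := by
        rw [hBd, lintegral_eq_zero_iff' hw] at hB0
        filter_upwards [hB0] with ξ hξ
        simp only [Pi.zero_apply, ENNReal.div_eq_zero_iff, ENNReal.coe_ne_top, or_false] at hξ
        simpa using hξ
      have h2 : ∀ R x, ps G R x = 0 := by
        intro R x
        rw [ps]
        refine integral_eq_zero_of_ae ?_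
        filter_upwards [ae_restrict_of_ae h1] with ξ hξ
        rw [hξ]; simp
      simp [h2]
    · rw [hAt, ENNReal.mul_top hK, ENNReal.top_mul hB0]
      exact le_top
  -- perturbed weights
  have key : ∀ ε : ℝ≥0, 0 < ε → ∫⁻ x in Metric.closedBall x₀ ρ, (⨆ R : ℝ, ‖ps G R x‖ₑ) ^ 2
      ≤ ENNReal.ofReal (10 * (m + 1) * √(m + 1) * ρ) * (A + ε) * B := by
    intro ε hε
    set w : ℝ → ℝ≥0 := fun r => v r + ε * (rexp (-r)).toNNReal with hwd
    have hwm : Measurable w := by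
      rw [hwd]
      exact hv.add ((measurable_real_toNNReal.comp (by fun_prop)).const_mul _)
    have hwpos : ∀ r, 0 < w r := fun r => by
      rw [hwd]
      have : 0 < (rexp (-r)).toNNReal := Real.toNNReal_pos.2 (exp_pos _)
      positivity
    have hwA : ∫⁻ r in Ici 0, (w r : ℝ≥0∞) = A + ε := by
      rw [hwd]
      simp only [ENNReal.coe_add, ENNReal.coe_mul]
      have hvm : Measurable fun r => (v r : ℝ≥0∞) := measurable_coe_nnreal_ennreal.comp hv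
      rw [lintegral_add_left hvm, lintegral_const_mul' _ _ ENNReal.coe_ne_top]
      have := exp_int
      simp only [ENNReal.ofReal] at this
      rw [this, mul_one]
    have hA2 : A + (ε : ℝ≥0∞) ≠ ∞ := ENNReal.add_ne_top.2 ⟨hAt, ENNReal.coe_ne_top⟩
    have h1 := max_pos hG hwm hwpos (by rw [hwA]; exact hA2) x₀ hρ
    rw [hwA] at h1
    refine h1.trans (mul_le_mul' le_rfl (lintegral_mono fun ξ => ?_))
    refine ENNReal.div_le_div_left ?_ _
    rw [hwd]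
    exact_mod_cast le_self_add
  have hlim : Tendsto (fun ε : ℝ≥0 => ENNReal.ofReal (10 * (m + 1) * √(m + 1) * ρ) *
      (A + (ε : ℝ≥0∞)) * B) (𝓝[>] 0) (𝓝 (ENNReal.ofReal (10 * (m + 1) * √(m + 1) * ρ) *
      (A + ((0 : ℝ≥0) : ℝ≥0∞)) * B)) := by
    have h1 : Tendsto (fun ε : ℝ≥0 => (ε : ℝ≥0∞)) (𝓝[>] 0) (𝓝 ((0 : ℝ≥0) : ℝ≥0∞)) :=
      (ENNReal.tendsto_coe.2 tendsto_id).mono_left nhdsWithin_le_nhds
    refine ENNReal.Tendsto.mul_const (ENNReal.Tendsto.const_mul (tendsto_const_nhds.add h1)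
      (Or.inr ENNReal.ofReal_ne_top)) (Or.inr hB)
  rw [ENNReal.coe_zero, add_zero] at hlim
  refine ge_of_tendsto hlim ?_
  filter_upwards [self_mem_nhdsWithin] with ε hε
  exact key ε hε

/-- the part of `G` outside the ball of radius `M` -/
noncomputable def out {n : ℕ} (G : En n → ℂ) (M : ℝ) : En n → ℂ := {ξ | M ≤ ‖ξ‖}.indicator G

lemma out_meas {n : ℕ} (M : ℝ) : MeasurableSet {ξ : En n | M ≤ ‖ξ‖} :=
  measurableSet_le measurable_const measurable_norm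

lemma out_mem {n : ℕ} {G : En n → ℂ} (hG : MemLp G 2) (M : ℝ) : MemLp (out G M) 2 :=
  hG.indicator (out_meas M)

lemma ps_out {m : ℕ} {G : En (m + 1) → ℂ} (hG : MemLp G 2) {M R : ℝ} (hM : 0 ≤ M) (h : M ≤ R)
    (x : En (m + 1)) : ps G R x - ps G M x = ps (out G M) R x := by
  rw [ps_sub hG hM h, ps_eq, Fi, Fi]
  refine integral_congr_ae (Eventually.of_forall fun ξ => ?_)
  simp only
  by_cases h1 : M ≤ ‖ξ‖
  · have e : out G M ξ = G ξ := indicator_of_mem (show ξ ∈ {ξ : En (m + 1) | M ≤ ‖ξ‖} from h1) _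
    by_cases h2 : ‖ξ‖ < R
    · rw [indicator_of_mem (show ξ ∈ shell (m + 1) M R from ⟨h1, h2⟩),
        indicator_of_mem (show ξ ∈ shell (m + 1) 0 R from ⟨norm_nonneg _, h2⟩), e]
    · rw [indicator_of_notMem (fun h' : ξ ∈ shell (m + 1) M R => h2 h'.2),
        indicator_of_notMem (fun h' : ξ ∈ shell (m + 1) 0 R => h2 h'.2)]
  · have e : out G M ξ = 0 := by
      have h1' : ξ ∉ {ξ : En (m + 1) | M ≤ ‖ξ‖} := h1
      unfold out
      exact indicator_of_notMem h1' G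
    rw [indicator_of_notMem (fun h' : ξ ∈ shell (m + 1) M R => h1 h'.1)]
    by_cases h2 : ‖ξ‖ < R
    · rw [indicator_of_mem (show ξ ∈ shell (m + 1) 0 R from ⟨norm_nonneg _, h2⟩), e]
    · rw [indicator_of_notMem (fun h' : ξ ∈ shell (m + 1) 0 R => h2 h'.2)]

/-- the maximal inequality outside a ball -/
lemma max_out {m : ℕ} {G : En (m + 1) → ℂ} (hG : MemLp G 2) {v : ℝ → ℝ≥0} (hv : Measurable v)
    (hB : ∫⁻ ξ, ‖G ξ‖ₑ ^ 2 / v ‖ξ‖ ≠ ∞) (x₀ : En (m + 1)) {ρ : ℝ} (hρ : 0 < ρ) {M : ℝ}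
    (hM : 0 ≤ M) :
    ∫⁻ x in Metric.closedBall x₀ ρ, (⨆ R : ℝ, ‖ps (out G M) R x‖ₑ) ^ 2
      ≤ ENNReal.ofReal (10 * (m + 1) * √(m + 1) * ρ) * (∫⁻ r in Ici M, (v r : ℝ≥0∞)) *
          ∫⁻ ξ, ‖G ξ‖ₑ ^ 2 / v ‖ξ‖ := by
  set w : ℝ → ℝ≥0 := (Ici M).indicator v with hw
  have hwm : Measurable w := hv.indicator measurableSet_Ici
  have h1 : ∫⁻ ξ, ‖out G M ξ‖ₑ ^ 2 / w ‖ξ‖ ≤ ∫⁻ ξ, ‖G ξ‖ₑ ^ 2 / v ‖ξ‖ := by
    refine lintegral_mono fun ξ => ?_
    by_cases h : M ≤ ‖ξ‖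
    · have e : out G M ξ = G ξ := indicator_of_mem (show ξ ∈ {ξ : En (m + 1) | M ≤ ‖ξ‖} from h) _
      simp only
      rw [e, hw, indicator_of_mem (show ‖ξ‖ ∈ Ici M from h)]
    · have e : out G M ξ = 0 := by
        have h' : ξ ∉ {ξ : En (m + 1) | M ≤ ‖ξ‖} := h
        unfold out
        exact indicator_of_notMem h' G
      simp only
      rw [e]; simp
  refine (max_v (out_mem hG M) hwm (ne_top_of_le_ne_top hB h1) x₀ hρ).trans ?_
  refine mul_le_mul' (mul_le_mul' le_rfl (le_of_eq ?_)) h1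
  rw [← lintegral_indicator measurableSet_Ici, ← lintegral_indicator measurableSet_Ici]
  refine lintegral_congr fun r => ?_
  by_cases hr : r ∈ Ici M
  · rw [indicator_of_mem (show r ∈ Ici (0 : ℝ) from hM.trans hr), indicator_of_mem hr, hw,
      indicator_of_mem hr]
  · rw [indicator_of_notMem hr]
    by_cases hr0 : r ∈ Ici (0 : ℝ)
    · rw [indicator_of_mem hr0, hw, indicator_of_notMem hr]; simp
    · rw [indicator_of_notMem hr0]

/-- **convergence almost everywhere** -/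
theorem conv_v {m : ℕ} {G : En (m + 1) → ℂ} (hG : MemLp G 2) {v : ℝ → ℝ≥0} (hv : Measurable v)
    (hA : ∫⁻ r in Ici 0, (v r : ℝ≥0∞) ≠ ∞) (hB : ∫⁻ ξ, ‖G ξ‖ₑ ^ 2 / v ‖ξ‖ ≠ ∞) :
    ∀ᵐ x : En (m + 1), ∃ L : ℂ, Tendsto (fun R : ℝ => ps G R x) atTop (𝓝 L) := by
  have hvm : Measurable fun r => (v r : ℝ≥0∞) := measurable_coe_nnreal_ennreal.comp hv
  -- tails of the weight
  have htail : Tendsto (fun k : ℕ => ∫⁻ r in Ici (k : ℝ), (v r : ℝ≥0∞)) atTop (𝓝 0) := by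
    have h1 : Tendsto (fun k : ℕ => (volume.withDensity fun r => (v r : ℝ≥0∞)) (Ici (k : ℝ))) atTop
        (𝓝 ((volume.withDensity fun r => (v r : ℝ≥0∞)) (⋂ k : ℕ, Ici (k : ℝ)))) := by
      refine tendsto_measure_iInter_atTop (fun k => measurableSet_Ici.nullMeasurableSet) ?_ ⟨0, ?_⟩
      · intro a b hab
        exact Ici_subset_Ici.2 (by exact_mod_cast hab)
      · rw [withDensity_apply _ measurableSet_Ici]
        simpa using hA
    have h2 : (⋂ k : ℕ, Ici (k : ℝ)) = ∅ := by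
      ext r
      simp only [mem_iInter, mem_Ici, mem_empty_iff_false, iff_false, not_forall, not_le]
      exact exists_nat_gt r
    rw [h2, measure_empty] at h1
    refine h1.congr fun k => ?_
    rw [withDensity_apply _ measurableSet_Ici]
  have hball : ∀ k : ℕ, ∀ᵐ x : En (m + 1), x ∈ Metric.closedBall (0 : En (m + 1)) (k + 1) →
      liminf (fun j : ℕ => (⨆ R : ℝ, ‖ps (out G j) R x‖ₑ) ^ 2) atTop = 0 := by
    intro k
    have hk : (0 : ℝ) < (k : ℝ) + 1 := by positivity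
    have h1 : ∫⁻ x in Metric.closedBall (0 : En (m + 1)) (k + 1),
        liminf (fun j : ℕ => (⨆ R : ℝ, ‖ps (out G j) R x‖ₑ) ^ 2) atTop = 0 := by
      refine le_antisymm ?_ zero_le
      refine (lintegral_liminf_le fun j => sup_meas (out_mem hG _)).trans ?_
      have h2 : Tendsto (fun j : ℕ => ENNReal.ofReal (10 * (m + 1) * √(m + 1) * (k + 1)) *
          (∫⁻ r in Ici (j : ℝ), (v r : ℝ≥0∞)) * ∫⁻ ξ : En (m + 1), ‖G ξ‖ₑ ^ 2 / v ‖ξ‖) atTop
          (𝓝 (ENNReal.ofReal (10 * (m + 1) * √(m + 1) * (k + 1)) * 0 *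
            ∫⁻ ξ : En (m + 1), ‖G ξ‖ₑ ^ 2 / v ‖ξ‖)) :=
        ENNReal.Tendsto.mul_const (ENNReal.Tendsto.const_mul htail
          (Or.inr ENNReal.ofReal_ne_top)) (Or.inr hB)
      rw [mul_zero, zero_mul] at h2
      rw [← h2.liminf_eq]
      refine liminf_le_liminf (Eventually.of_forall fun j => ?_)
      exact max_out hG hv hB (0 : En (m + 1)) hk (Nat.cast_nonneg j)
    have h3 : Measurable fun x => liminf (fun j : ℕ => (⨆ R : ℝ, ‖ps (out G j) R x‖ₑ) ^ 2) atTop :=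
      Measurable.liminf fun j => sup_meas (out_mem hG _)
    rw [lintegral_eq_zero_iff h3] at h1
    have h4 := (ae_restrict_iff' Metric.isClosed_closedBall.measurableSet).1 h1
    filter_upwards [h4] with x hx
    exact hx
  filter_upwards [ae_all_iff.2 hball] with x hx
  obtain ⟨k, hk⟩ := exists_nat_ge ‖x‖
  have h0 := hx k (by simp; linarith)
  have hfreq : ∀ ε : ℝ≥0∞, 0 < ε → ∃ j : ℕ, (⨆ R : ℝ, ‖ps (out G j) R x‖ₑ) ^ 2 < ε := by
    intro ε hε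
    by_contra hcon
    push Not at hcon
    have : ε ≤ liminf (fun j : ℕ => (⨆ R : ℝ, ‖ps (out G j) R x‖ₑ) ^ 2) atTop :=
      le_liminf_of_le (by isBoundedDefault) (Eventually.of_forall hcon)
    rw [h0] at this
    exact absurd (le_antisymm this zero_le) hε.ne'
  have hc : CauchySeq fun R : ℝ => ps G R x := by
    rw [Metric.cauchySeq_iff']
    intro ε hε
    obtain ⟨j, hj⟩ := hfreq (ENNReal.ofReal (ε ^ 2)) (by
      rw [ENNReal.ofReal_pos]; positivity)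
    refine ⟨j, fun R hR => ?_⟩
    rw [dist_eq_norm, ps_out hG (Nat.cast_nonneg j) hR]
    have h1 : ‖ps (out G j) R x‖ₑ ^ 2 < ENNReal.ofReal (ε ^ 2) := by
      refine lt_of_le_of_lt ?_ hj
      exact pow_le_pow_left' (le_iSup (fun R : ℝ => ‖ps (out G j) R x‖ₑ) R) 2
    rw [← ofReal_norm, ← ENNReal.ofReal_pow (norm_nonneg _)] at h1
    have h2 := (ENNReal.ofReal_lt_ofReal_iff (by positivity)).1 h1
    exact lt_of_pow_lt_pow_left₀ 2 hε.le h2
  exact cauchySeq_tendsto_of_complete hc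

end Pool.Agent.U588.Sph
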