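import Mathlib
import Pool.Agent.U588.SphC

/-! Dilations, Schwartz functions, and the reduction to a discrete set of radii. -/

set_option autoImplicit false

open MeasureTheory Real Set Filter Topology
open scoped ENNReal NNReal RealInnerProductSpace FourierTransform SchwartzMap Pointwise

namespace Pool.Agent.U588.Sph

open Pool.Agent.Helper93.Sph

lemma lint_smul {n : ℕ} {c : ℝ} (hc : 0 < c) (f : En n → ℝ≥0∞) (hf : Measurable f) :
    ∫⁻ x : En n, f (c • x) = ENNReal.ofReal ((c ^ n)⁻¹) * ∫⁻ z, f z := by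
  have h3 := Measure.map_addHaar_smul (volume : Measure (En n)) hc.ne'
  have h4 : ∫⁻ x : En n, f x ∂(Measure.map (c • · : En n → En n) volume) =
      ∫⁻ ξ : En n, f (c • ξ) := lintegral_map hf (measurable_const_smul _)
  rw [← h4, h3, lintegral_smul_measure, smul_eq_mul, finrank_euclideanSpace_fin,
    abs_of_nonneg (by positivity)]

lemma lint_smul_ball {n : ℕ} {c : ℝ} (hc : 0 < c) (f : En n → ℝ≥0∞) (hf : Measurable f) (ρ : ℝ) :
    ∫⁻ x in Metric.closedBall (0 : En n) ρ, f (c • x) = ENNReal.ofReal ((c ^ n)⁻¹) *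
      ∫⁻ z in Metric.closedBall (0 : En n) (c * ρ), f z := by
  rw [← lintegral_indicator Metric.isClosed_closedBall.measurableSet,
    ← lintegral_indicator Metric.isClosed_closedBall.measurableSet,
    ← lint_smul hc _ (hf.indicator Metric.isClosed_closedBall.measurableSet)]
  refine lintegral_congr fun x => ?_
  have hiff : c • x ∈ Metric.closedBall (0 : En n) (c * ρ) ↔
      x ∈ Metric.closedBall (0 : En n) ρ := by
    simp only [Metric.mem_closedBall, dist_zero_right, norm_smul, Real.norm_eq_abs, abs_of_pos hc]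
    exact mul_le_mul_iff_right₀ hc
  by_cases hx : x ∈ Metric.closedBall (0 : En n) ρ
  · rw [indicator_of_mem hx, indicator_of_mem (hiff.2 hx)]
  · rw [indicator_of_notMem hx, indicator_of_notMem (fun h => hx (hiff.1 h))]

/-- dilation of the Fourier transform -/
noncomputable def dil {n : ℕ} (c : ℝ) (G : En n → ℂ) : En n → ℂ := fun ξ => G (c⁻¹ • ξ)

lemma dil_mem {n : ℕ} {c : ℝ} (hc : 0 < c) {G : En n → ℂ} (hG : MemLp G 2) :
    MemLp (dil c G) 2 := by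
  have hm : MeasurePreserving (fun ξ : En n => c⁻¹ • ξ) volume
      (ENNReal.ofReal |((c⁻¹) ^ n)⁻¹| • (volume : Measure (En n))) := by
    refine ⟨measurable_const_smul _, ?_⟩
    have := Measure.map_addHaar_smul (volume : Measure (En n)) (inv_ne_zero hc.ne')
    rw [finrank_euclideanSpace_fin] at this
    exact this
  have h1 : MemLp G 2 (ENNReal.ofReal |((c⁻¹) ^ n)⁻¹| • (volume : Measure (En n))) :=
    hG.smul_measure ENNReal.ofReal_ne_top
  exact h1.comp_measurePreserving hm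

lemma ps_dil {m : ℕ} {c : ℝ} (hc : 0 < c) (G : En (m + 1) → ℂ) (R : ℝ) (x : En (m + 1)) :
    ps (dil c G) R x = (c : ℂ) ^ (m + 1) * ps G (c⁻¹ * R) (c • x) := by
  have h := Measure.setIntegral_comp_smul_of_pos (volume : Measure (En (m + 1)))
    (fun η : En (m + 1) => ek (c • x) η * G η) (Metric.closedBall (0 : En (m + 1)) R)
    (inv_pos.2 hc)
  have e1 : ∀ ξ : En (m + 1), ek (c • x) (c⁻¹ • ξ) = ek x ξ := by
    intro ξ
    rw [ek, ek, real_inner_smul_left, real_inner_smul_right, ← mul_assoc, mul_inv_cancel₀ hc.ne',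
      one_mul]
  have e2 : c⁻¹ • Metric.closedBall (0 : En (m + 1)) R =
      Metric.closedBall (0 : En (m + 1)) (c⁻¹ * R) := by
    rw [smul_closedBall' (inv_ne_zero hc.ne'), smul_zero, Real.norm_of_nonneg (inv_pos.2 hc).le]
  rw [e2] at h
  simp only [e1] at h
  unfold ps dil
  rw [h, finrank_euclideanSpace_fin]
  simp only [inv_pow, inv_inv, Complex.real_smul]
  push_cast
  ring

lemma lint_dil {n : ℕ} {c : ℝ} (hc : 0 < c) {G : En n → ℂ} (hG : MemLp G 2) :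
    ∫⁻ ξ, ‖dil c G ξ‖ₑ ^ 2 = ENNReal.ofReal (c ^ n) * ∫⁻ ξ, ‖G ξ‖ₑ ^ 2 := by
  obtain ⟨G', h1, h2⟩ := hG.aestronglyMeasurable
  have h3 : ∀ᵐ ξ : En n, dil c G ξ = dil c G' ξ := by
    have hq : Measure.QuasiMeasurePreserving (fun ξ : En n => c⁻¹ • ξ) volume volume := by
      refine ⟨measurable_const_smul _, ?_⟩
      rw [Measure.map_addHaar_smul (volume : Measure (En n)) (inv_ne_zero hc.ne')]
      exact Measure.smul_absolutelyContinuous
    exact hq.ae h2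
  have e1 : ∫⁻ ξ, ‖dil c G ξ‖ₑ ^ 2 = ∫⁻ ξ, ‖dil c G' ξ‖ₑ ^ 2 :=
    lintegral_congr_ae (h3.mono fun ξ h => by simp only [h])
  have e2 : ∫⁻ ξ, ‖G ξ‖ₑ ^ 2 = ∫⁻ ξ, ‖G' ξ‖ₑ ^ 2 :=
    lintegral_congr_ae (h2.mono fun ξ h => by simp only [h])
  rw [e1, e2]
  have := lint_smul (inv_pos.2 hc) (fun ξ => ‖G' ξ‖ₑ ^ 2) (h1.measurable.enorm.pow_const 2)
  rw [inv_pow, inv_inv] at this
  exact this

/-- the maximal operator over a set of radii -/
noncomputable def smax {n : ℕ} (Λ : Set ℝ) (G : En n → ℂ) (x : En n) : ℝ≥0∞ :=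
  ⨆ R ∈ Λ, ‖ps G R x‖ₑ

lemma smax_univ {n : ℕ} (G : En n → ℂ) (x : En n) : smax univ G x = ⨆ R : ℝ, ‖ps G R x‖ₑ := by
  simp [smax]

/-- the local bound for the whole family of radii gives the global one -/
theorem local_global {m : ℕ} {ρ : ℝ} (hρ : 0 < ρ) {K : ℝ≥0∞}
    (h : ∀ G : En (m + 1) → ℂ, MemLp G 2 →
      ∫⁻ x in Metric.closedBall (0 : En (m + 1)) ρ, (⨆ R : ℝ, ‖ps G R x‖ₑ) ^ 2 ≤
        K * ∫⁻ ξ, ‖G ξ‖ₑ ^ 2)
    {G : En (m + 1) → ℂ} (hG : MemLp G 2) :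
    ∫⁻ x, (⨆ R : ℝ, ‖ps G R x‖ₑ) ^ 2 ≤ K * ∫⁻ ξ, ‖G ξ‖ₑ ^ 2 := by
  have key : ∀ k : ℕ, ∫⁻ x in Metric.closedBall (0 : En (m + 1)) (k + 1),
      (⨆ R : ℝ, ‖ps G R x‖ₑ) ^ 2 ≤ K * ∫⁻ ξ, ‖G ξ‖ₑ ^ 2 := by
    intro k
    set c : ℝ := (k + 1) / ρ with hcd
    have hc : 0 < c := by positivity
    have hcρ : c * ρ = k + 1 := by rw [hcd]; field_simp
    have h1 := h (dil c G) (dil_mem hc hG)
    rw [lint_dil hc hG] at h1
    have e1 : ∀ x : En (m + 1), (⨆ R : ℝ, ‖ps (dil c G) R x‖ₑ) ^ 2 =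
        ENNReal.ofReal (c ^ (m + 1)) ^ 2 * (⨆ R : ℝ, ‖ps G R (c • x)‖ₑ) ^ 2 := by
      intro x
      rw [← mul_pow]
      congr 1
      have e3 : ∀ R, ‖ps (dil c G) R x‖ₑ = ENNReal.ofReal (c ^ (m + 1)) *
          ‖ps G (c⁻¹ * R) (c • x)‖ₑ := by
        intro R
        rw [ps_dil hc, enorm_mul]
        congr 1
        rw [← ofReal_norm, norm_pow, Complex.norm_real, Real.norm_of_nonneg hc.le]
      simp_rw [e3]
      rw [← ENNReal.mul_iSup]
      congr 1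
      refine (Equiv.iSup_comp (Equiv.mulLeft₀ c⁻¹ (inv_ne_zero hc.ne'))
        (g := fun R => ‖ps G R (c • x)‖ₑ))
    simp_rw [e1] at h1
    rw [lintegral_const_mul' _ _ (by simp), lint_smul_ball hc
      (fun x => (⨆ R : ℝ, ‖ps G R x‖ₑ) ^ 2) (sup_meas hG), hcρ, ← mul_assoc] at h1
    have e4 : ENNReal.ofReal (c ^ (m + 1)) ^ 2 * ENNReal.ofReal ((c ^ (m + 1))⁻¹) =
        ENNReal.ofReal (c ^ (m + 1)) := by
      rw [← ENNReal.ofReal_pow (by positivity), ← ENNReal.ofReal_mul (by positivity)]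
      congr 1
      field_simp
    rw [e4, mul_left_comm] at h1
    have h5 : ENNReal.ofReal (c ^ (m + 1)) ≠ 0 := by
      simp only [ne_eq, ENNReal.ofReal_eq_zero, not_le]; positivity
    exact (ENNReal.mul_le_mul_iff_right h5 ENNReal.ofReal_ne_top).1 h1
  have hU : (⋃ k : ℕ, Metric.closedBall (0 : En (m + 1)) (k + 1)) = univ := by
    ext x
    simp only [mem_iUnion, Metric.mem_closedBall, dist_zero_right, mem_univ, iff_true]
    obtain ⟨k, hk⟩ := exists_nat_ge ‖x‖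
    exact ⟨k, by linarith⟩
  rw [← setLIntegral_univ, ← hU, setLIntegral_iUnion_of_directed]
  · exact iSup_le key
  · refine Monotone.directed_le fun a b hab => ?_
    exact Metric.closedBall_subset_closedBall (by
      have : (a : ℝ) ≤ b := by exact_mod_cast hab
      linarith)

/-- two partial sums -/
lemma two_ps {m : ℕ} {G : En (m + 1) → ℂ} (hG : MemLp G 2) (x : En (m + 1)) {R R' ℓ : ℝ}
    (hR : 0 ≤ R) (hR' : 0 ≤ R') (h : |R - R'| ≤ ℓ) :
    ‖ps G R x - ps G R' x‖ₑ ^ 2 ≤ ENNReal.ofReal ℓ * energy G x := by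
  wlog hle : R ≤ R' generalizing R R'
  · have h1 := this hR' hR (by rwa [abs_sub_comm]) (le_of_not_ge hle)
    rwa [← enorm_neg, neg_sub] at h1
  rcases hle.eq_or_lt with he | hlt
  · rw [he, sub_self]; simp
  have h1 := energy_partition hG x (fun i => if i = 0 then R else R') (by
    refine monotone_nat_of_le_succ fun i => ?_
    by_cases hi : i = 0
    · simp [hi, hle]
    · simp [hi]) (by simpa using hR) 1
  simp only [Finset.range_one, Finset.sum_singleton, zero_add, one_ne_zero, if_false, if_true] at h1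
  have hp : 0 < R' - R := by linarith
  rw [ENNReal.div_le_iff (by simpa using hp) ENNReal.ofReal_ne_top] at h1
  rw [← enorm_neg, neg_sub, mul_comm]
  refine h1.trans (mul_le_mul' le_rfl (ENNReal.ofReal_le_ofReal ?_))
  rw [abs_sub_comm, abs_of_pos hp] at h
  exact h

/-- all radii against a relatively dense set of radii -/
lemma sup_le_smax {m : ℕ} {G : En (m + 1) → ℂ} (hG : MemLp G 2) {Λ : Set ℝ} {ℓ : ℝ}
    (hΛ0 : ∀ t ∈ Λ, 0 ≤ t) (hΛ : ∀ t : ℝ, 0 ≤ t → ∃ s ∈ Λ, |t - s| ≤ ℓ) (x : En (m + 1)) :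
    (⨆ R : ℝ, ‖ps G R x‖ₑ) ≤ smax Λ G x + (ENNReal.ofReal ℓ * energy G x) ^ (1 / 2 : ℝ) := by
  refine iSup_le fun R => ?_
  rcases lt_or_ge R 0 with hR | hR
  · rw [ps_neg G hR]; simp
  obtain ⟨s, hs, hRs⟩ := hΛ R hR
  have h1 := two_ps hG x hR (hΛ0 s hs) hRs
  have h2 : ‖ps G R x - ps G s x‖ₑ ≤ (ENNReal.ofReal ℓ * energy G x) ^ (1 / 2 : ℝ) := by
    have h3 := ENNReal.rpow_le_rpow h1 (show (0 : ℝ) ≤ 1 / 2 by norm_num)
    rwa [← ENNReal.rpow_natCast, ← ENNReal.rpow_mul, show ((2 : ℕ) : ℝ) * (1 / 2) = 1 by norm_num,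
      ENNReal.rpow_one] at h3
  calc ‖ps G R x‖ₑ = ‖ps G s x + (ps G R x - ps G s x)‖ₑ := by congr 1; ring
    _ ≤ ‖ps G s x‖ₑ + ‖ps G R x - ps G s x‖ₑ := enorm_add_le _ _
    _ ≤ _ := add_le_add (le_iSup₂ (f := fun R (_ : R ∈ Λ) => ‖ps G R x‖ₑ) s hs) h2

end Pool.Agent.U588.Sph
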