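import Mathlib
import Pool.Agent.U588.SphD

/-! Density of Schwartz functions; the equivalence of the maximal inequalities. -/

set_option autoImplicit false

open MeasureTheory Real Set Filter Topology
open scoped ENNReal NNReal RealInnerProductSpace FourierTransform SchwartzMap

namespace Pool.Agent.U588.Sph

open Pool.Agent.Helper93.Sph

lemma lint_two {n : ℕ} (F : En n → ℂ) (μ : Measure (En n)) :
    ∫⁻ ξ, ‖F ξ‖ₑ ^ 2 ∂μ = (eLpNorm F 2 μ) ^ 2 := by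
  rw [eLpNorm_eq_lintegral_rpow_enorm_toReal (by norm_num) (by norm_num), ← ENNReal.rpow_natCast,
    ← ENNReal.rpow_mul]
  simp

lemma smax_meas {m : ℕ} (Λ : Set ℝ) {G : En (m + 1) → ℂ} (hG : MemLp G 2) :
    Measurable (smax Λ G) := by
  have h1 : LowerSemicontinuous (smax Λ G) := by
    unfold smax
    refine lowerSemicontinuous_iSup fun R => lowerSemicontinuous_iSup fun _ => ?_
    exact ((ps_cont_x hG R).enorm).lowerSemicontinuous
  exact h1.measurable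

/-- Schwartz functions are dense in `L²` -/
lemma dense_seq {n : ℕ} {G : En n → ℂ} (hG : MemLp G 2) :
    ∃ h : ℕ → 𝓢(En n, ℂ), Tendsto (fun k => eLpNorm (fun ξ => G ξ - h k ξ) 2 volume) atTop (𝓝 0) := by
  have h1 := SchwartzMap.denseRange_toLpCLM (F := ℂ) (E := En n)
    (p := 2) (by norm_num) (μ := volume)
  have h2 : ∀ k : ℕ, ∃ h : 𝓢(En n, ℂ), dist (hG.toLp G) (h.toLp 2 volume) < 1 / ((k : ℝ) + 1) := by
    intro k
    obtain ⟨y, hy⟩ := h1.exists_dist_lt (hG.toLp G) (show (0 : ℝ) < 1 / ((k : ℝ) + 1) by positivity)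
    exact ⟨y, by simpa using hy⟩
  choose h hh using h2
  refine ⟨h, ?_⟩
  have h3 : ∀ k, eLpNorm (fun ξ => G ξ - h k ξ) 2 volume ≤ ENNReal.ofReal (1 / ((k : ℝ) + 1)) := by
    intro k
    have h4 := (hh k).le
    rw [Lp.dist_def] at h4
    have e : eLpNorm (fun ξ => G ξ - h k ξ) 2 volume =
        eLpNorm ((hG.toLp G : En n → ℂ) - ((h k).toLp 2 volume : En n → ℂ)) 2 volume := by
      refine eLpNorm_congr_ae ?_
      filter_upwards [hG.coeFn_toLp, (h k).coeFn_toLp 2 volume] with ξ h5 h6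
      simp only [Pi.sub_apply, h5, h6]
    rw [e]
    refine ENNReal.le_ofReal_iff_toReal_le ?_ (by positivity) |>.2 h4
    have : MemLp ((hG.toLp G : En n → ℂ) - ((h k).toLp 2 volume : En n → ℂ)) 2 volume :=
      (Lp.memLp _).sub (Lp.memLp _)
    exact this.2.ne
  have h4 : Tendsto (fun k : ℕ => ENNReal.ofReal (1 / ((k : ℝ) + 1))) atTop (𝓝 0) := by
    rw [← ENNReal.ofReal_zero]
    exact ENNReal.tendsto_ofReal tendsto_one_div_add_atTop_nhds_zero_nat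
  exact tendsto_of_tendsto_of_tendsto_of_le_of_le tendsto_const_nhds h4 (fun _ => zero_le) h3

/-- convergence of the partial sums -/
lemma ps_lim {n : ℕ} {G : En n → ℂ} (hG : MemLp G 2) {h : ℕ → En n → ℂ}
    (hh : ∀ k, MemLp (h k) 2) (hlim : Tendsto (fun k => eLpNorm (fun ξ => G ξ - h k ξ) 2 volume)
      atTop (𝓝 0)) (R : ℝ) (x : En n) :
    Tendsto (fun k => ps (h k) R x) atTop (𝓝 (ps G R x)) := by
  set B := Metric.closedBall (0 : En n) R with hB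
  have hBfin : volume B ≠ ∞ := (measure_closedBall_lt_top).ne
  have : IsFiniteMeasure (volume.restrict B) := ⟨by
    rw [Measure.restrict_apply_univ]; exact hBfin.lt_top⟩
  have hint : ∀ F : En n → ℂ, MemLp F 2 volume → Integrable (fun ξ => ek x ξ * F ξ)
      (volume.restrict B) := by
    intro F hF
    refine ((hF.restrict B).integrable (by norm_num)).bdd_mul (c := 1) ?_ ?_
    · exact (ek_cont.comp (by fun_prop : Continuous fun ξ : En n => (x, ξ))).aestronglyMeasurable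
    · exact Eventually.of_forall fun ξ => (ek_norm x ξ).le
  have hbound : ∀ k, ‖ps G R x - ps (h k) R x‖ₑ ≤
      eLpNorm (fun ξ => G ξ - h k ξ) 2 volume * volume B ^ (1 / 2 : ℝ) := by
    intro k
    have e1 : ps G R x - ps (h k) R x = ∫ ξ in B, ek x ξ * (G ξ - h k ξ) := by
      rw [ps, ps, ← integral_sub (hint G hG) (hint (h k) (hh k))]
      refine integral_congr_ae (Eventually.of_forall fun ξ => ?_)
      simp only
      ring
    rw [e1]
    calc ‖∫ ξ in B, ek x ξ * (G ξ - h k ξ)‖ₑ ≤ ∫⁻ ξ in B, ‖ek x ξ * (G ξ - h k ξ)‖ₑ :=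
          enorm_integral_le_lintegral_enorm _
      _ = ∫⁻ ξ in B, ‖G ξ - h k ξ‖ₑ := by
          refine lintegral_congr fun ξ => ?_
          rw [enorm_mul, ← ofReal_norm (ek x ξ), ek_norm]; simp
      _ = eLpNorm (fun ξ => G ξ - h k ξ) 1 (volume.restrict B) := by
          rw [eLpNorm_one_eq_lintegral_enorm]
      _ ≤ eLpNorm (fun ξ => G ξ - h k ξ) 2 (volume.restrict B) *
            (volume.restrict B) univ ^ (1 / (1 : ℝ≥0∞).toReal - 1 / (2 : ℝ≥0∞).toReal) :=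
          eLpNorm_le_eLpNorm_mul_rpow_measure_univ (by norm_num)
            ((hG.aestronglyMeasurable.sub (hh k).aestronglyMeasurable).restrict)
      _ ≤ _ := by
          rw [Measure.restrict_apply_univ]
          have e2 : (1 / (1 : ℝ≥0∞).toReal - 1 / (2 : ℝ≥0∞).toReal) = (1 / 2 : ℝ) := by norm_num
          rw [e2]
          exact mul_le_mul_left (eLpNorm_mono_measure _ Measure.restrict_le_self) _
  have h2 : Tendsto (fun k => eLpNorm (fun ξ => G ξ - h k ξ) 2 volume * volume B ^ (1 / 2 : ℝ)) atTop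
      (𝓝 (0 * volume B ^ (1 / 2 : ℝ))) :=
    ENNReal.Tendsto.mul_const hlim (Or.inr (ENNReal.rpow_ne_top_of_nonneg (by norm_num) hBfin))
  rw [zero_mul] at h2
  have h3 : Tendsto (fun k => ‖ps G R x - ps (h k) R x‖ₑ) atTop (𝓝 0) :=
    tendsto_of_tendsto_of_tendsto_of_le_of_le tendsto_const_nhds h2 (fun _ => zero_le) hbound
  rw [tendsto_iff_edist_tendsto_0]
  refine h3.congr fun k => ?_
  rw [edist_comm, edist_eq_enorm_sub]

/-- from Schwartz functions to `L²` -/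
theorem schwartz_L2 {m : ℕ} (Λ : Set ℝ) (B : Set (En (m + 1))) {K : ℝ≥0∞} (hK : K ≠ ∞)
    (h : ∀ f : 𝓢(En (m + 1), ℂ), ∫⁻ x in B, smax Λ (𝓕 f : 𝓢(En (m + 1), ℂ)) x ^ 2 ≤ K * ∫⁻ x, ‖f x‖ₑ ^ 2)
    {G : En (m + 1) → ℂ} (hG : MemLp G 2) :
    ∫⁻ x in B, smax Λ G x ^ 2 ≤ K * ∫⁻ ξ, ‖G ξ‖ₑ ^ 2 := by
  obtain ⟨g, hg⟩ := dense_seq hG
  have hgm : ∀ k, MemLp (g k : En (m + 1) → ℂ) 2 volume := fun k => (g k).memLp 2 volume
  have hpt : ∀ x, smax Λ G x ^ 2 ≤ liminf (fun k => smax Λ (g k) x ^ 2) atTop := by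
    intro x
    have h1 : ∀ R ∈ Λ, ‖ps G R x‖ₑ ^ 2 ≤ liminf (fun k => smax Λ (g k) x ^ 2) atTop := by
      intro R hR
      have h2 : Tendsto (fun k => ‖ps (g k) R x‖ₑ ^ 2) atTop (𝓝 (‖ps G R x‖ₑ ^ 2)) :=
        ENNReal.Tendsto.pow (ps_lim hG hgm hg R x).enorm
      rw [← h2.liminf_eq]
      refine liminf_le_liminf (Eventually.of_forall fun k => ?_)
      exact pow_le_pow_left' (le_iSup₂ (f := fun R (_ : R ∈ Λ) => ‖ps (g k) R x‖ₑ) R hR) 2
    unfold smax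
    rw [ENNReal.iSup_pow_of_ne_zero two_ne_zero]
    refine iSup_le fun R => ?_
    rw [ENNReal.iSup_pow_of_ne_zero two_ne_zero]
    exact iSup_le fun hR => h1 R hR
  refine (lintegral_mono hpt).trans ?_
  refine (lintegral_liminf_le fun k => (smax_meas Λ (hgm k)).pow_const 2).trans ?_
  have h3 : ∀ k, ∫⁻ x in B, smax Λ (g k) x ^ 2 ≤
      K * (eLpNorm G 2 volume + eLpNorm (fun ξ => G ξ - g k ξ) 2 volume) ^ 2 := by
    intro k
    have h4 := h (𝓕⁻ (g k))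
    rw [FourierTransform.fourier_fourierInv_eq] at h4
    refine h4.trans (mul_le_mul' le_rfl ?_)
    rw [lint_two]
    refine pow_le_pow_left' ?_ 2
    have e1 : eLpNorm (𝓕⁻ (g k) : 𝓢(En (m + 1), ℂ)) 2 volume = eLpNorm (g k) 2 volume := by
      have h5 := SchwartzMap.norm_fourier_toL2_eq (𝓕⁻ (g k))
      rw [FourierTransform.fourier_fourierInv_eq, SchwartzMap.norm_toLp, SchwartzMap.norm_toLp]
        at h5
      exact ((ENNReal.toReal_eq_toReal_iff' ((g k).memLp 2 volume).2.ne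
        ((𝓕⁻ (g k) : 𝓢(En (m + 1), ℂ)).memLp 2 volume).2.ne).1 h5).symm
    rw [e1]
    calc eLpNorm (g k) 2 volume = eLpNorm (fun ξ => G ξ - (G ξ - g k ξ)) 2 volume := by
          congr 1; funext ξ; ring
      _ ≤ _ := eLpNorm_sub_le hG.aestronglyMeasurable
          (hG.aestronglyMeasurable.sub (hgm k).aestronglyMeasurable) (by norm_num)
  have h5 : Tendsto (fun k => K * (eLpNorm G 2 volume + eLpNorm (fun ξ => G ξ - g k ξ) 2 volume) ^ 2)
      atTop (𝓝 (K * (eLpNorm G 2 volume + 0) ^ 2)) :=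
    ENNReal.Tendsto.const_mul (ENNReal.Tendsto.pow (tendsto_const_nhds.add hg)) (Or.inr hK)
  rw [add_zero, ← lint_two] at h5
  rw [← h5.liminf_eq]
  exact liminf_le_liminf (Eventually.of_forall h3)

/-- the passage from a relatively dense set of radii, on a ball, to all radii on the whole space -/
theorem dense_all {m : ℕ} {Λ : Set ℝ} {ℓ ρ : ℝ} (hρ : 0 < ρ) (hℓ : 0 ≤ ℓ) (hΛ0 : ∀ t ∈ Λ, 0 ≤ t)
    (hΛ : ∀ t : ℝ, 0 ≤ t → ∃ s ∈ Λ, |t - s| ≤ ℓ) {K : ℝ≥0∞}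
    (h : ∀ G : En (m + 1) → ℂ, MemLp G 2 →
      ∫⁻ x in Metric.closedBall (0 : En (m + 1)) ρ, smax Λ G x ^ 2 ≤ K * ∫⁻ ξ, ‖G ξ‖ₑ ^ 2)
    {G : En (m + 1) → ℂ} (hG : MemLp G 2) :
    ∫⁻ x, (⨆ R : ℝ, ‖ps G R x‖ₑ) ^ 2 ≤
      (K ^ (1 / 2 : ℝ) + (ENNReal.ofReal (10 * (m + 1) * √(m + 1) * (ρ * ℓ))) ^ (1 / 2 : ℝ)) ^ 2 *
        ∫⁻ ξ, ‖G ξ‖ₑ ^ 2 := by
  refine local_global hρ (fun G hG => ?_) hG
  set B := Metric.closedBall (0 : En (m + 1)) ρ with hB
  set T := ∫⁻ ξ, ‖G ξ‖ₑ ^ 2 with hT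
  set b : En (m + 1) → ℝ≥0∞ := fun x => (ENNReal.ofReal ℓ * energy G x) ^ (1 / 2 : ℝ) with hb
  have hbm : Measurable b := ((energy_meas hG).const_mul _).pow_const _
  have h1 := ENNReal.lintegral_Lp_add_le (μ := volume.restrict B) (p := 2)
    (smax_meas Λ hG).aemeasurable hbm.aemeasurable (by norm_num)
  have h2 : ∫⁻ x in B, b x ^ (2 : ℝ) ≤
      ENNReal.ofReal (10 * (m + 1) * √(m + 1) * (ρ * ℓ)) * T := by
    have e1 : ∀ x, b x ^ (2 : ℝ) = ENNReal.ofReal ℓ * energy G x := by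
      intro x
      rw [hb]
      simp only
      rw [← ENNReal.rpow_mul, show (1 / 2 : ℝ) * 2 = 1 by norm_num, ENNReal.rpow_one]
    simp_rw [e1]
    rw [lintegral_const_mul' _ _ ENNReal.ofReal_ne_top]
    refine (mul_le_mul_right (energy_bound hG (0 : En (m + 1)) hρ) _).trans (le_of_eq ?_)
    rw [← mul_assoc, ← ENNReal.ofReal_mul hℓ]
    congr 2
    ring
  have e7 : ∀ y : ℝ≥0∞, y ^ (2 : ℝ) = y ^ 2 := fun y => ENNReal.rpow_ofNat y 2
  have h3 : ∫⁻ x in B, smax Λ G x ^ (2 : ℝ) ≤ K * T := by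
    have h7 := h G hG
    simp_rw [e7]
    exact h7
  have h4 : (∫⁻ x in B, (⨆ R : ℝ, ‖ps G R x‖ₑ) ^ (2 : ℝ)) ^ (1 / 2 : ℝ) ≤
      (K ^ (1 / 2 : ℝ) + (ENNReal.ofReal (10 * (m + 1) * √(m + 1) * (ρ * ℓ))) ^ (1 / 2 : ℝ)) *
        T ^ (1 / 2 : ℝ) := by
    calc (∫⁻ x in B, (⨆ R : ℝ, ‖ps G R x‖ₑ) ^ (2 : ℝ)) ^ (1 / 2 : ℝ)
        ≤ (∫⁻ x in B, (smax Λ G + b) x ^ (2 : ℝ)) ^ (1 / 2 : ℝ) := by
          refine ENNReal.rpow_le_rpow (lintegral_mono fun x => ?_) (by norm_num)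
          refine ENNReal.rpow_le_rpow ?_ (by norm_num)
          exact sup_le_smax hG hΛ0 hΛ x
      _ ≤ (∫⁻ x in B, smax Λ G x ^ (2 : ℝ)) ^ (1 / 2 : ℝ) +
            (∫⁻ x in B, b x ^ (2 : ℝ)) ^ (1 / 2 : ℝ) := h1
      _ ≤ (K * T) ^ (1 / 2 : ℝ) +
            (ENNReal.ofReal (10 * (m + 1) * √(m + 1) * (ρ * ℓ)) * T) ^ (1 / 2 : ℝ) :=
          add_le_add (ENNReal.rpow_le_rpow h3 (by norm_num))
            (ENNReal.rpow_le_rpow h2 (by norm_num))
      _ = _ := by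
          rw [ENNReal.mul_rpow_of_nonneg _ _ (by norm_num),
            ENNReal.mul_rpow_of_nonneg _ _ (by norm_num), add_mul]
  have h5 := pow_le_pow_left' h4 2
  have e6 : ∀ y : ℝ≥0∞, (y ^ (1 / 2 : ℝ)) ^ 2 = y := by
    intro y
    rw [← ENNReal.rpow_natCast, ← ENNReal.rpow_mul]
    norm_num
  rw [mul_pow, e6, e6] at h5
  simp_rw [e7] at h5
  exact h5

end Pool.Agent.U588.Sph
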